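import Pool.Agent.Helper91.GU.StD

/-!
# Project GU, module D8: powers of `y = x⁻¹` come from `L`
-/

set_option autoImplicit false

namespace Pool.Agent.Helper81.GU

open Pool.Agent.Helper91.GU
open Polynomial TensorProduct

universe u

/-- If `B ⊗ Q = 0` for a finite module `Q` then `Ann(Q) B = B`. -/
theorem ann_map_eq_top {L B Q : Type u} [CommRing L] [CommRing B] [Algebra L B] [AddCommGroup Q]
    [Module L Q] [Module.Finite L Q] (h : Subsingleton (B ⊗[L] Q)) :
    (Module.annihilator L Q).map (algebraMap L B) = ⊤ := by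
  by_contra hne
  obtain ⟨M, hM, hle⟩ := Ideal.exists_le_maximal _ hne
  haveI : M.IsPrime := hM.isPrime
  have hp : Module.annihilator L Q ≤ M.under L := by
    intro a ha
    exact hle (Ideal.mem_map_of_mem _ ha)
  have hsupp : (⟨M.under L, inferInstance⟩ : PrimeSpectrum L) ∈ Module.support L Q :=
    Module.mem_support_iff_of_finite.2 hp
  have hnt : Nontrivial ((M.under L).ResidueField ⊗[L] Q) :=
    (Module.mem_support_iff_nontrivial_residueField_tensorProduct
      (⟨M.under L, inferInstance⟩ : PrimeSpectrum L)).1 hsupp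
  letI : Algebra (M.under L).ResidueField M.ResidueField :=
    (Ideal.ResidueField.map (M.under L) M (algebraMap L B) rfl).toAlgebra
  haveI : IsScalarTower L (M.under L).ResidueField M.ResidueField := by
    refine IsScalarTower.of_algebraMap_eq fun a => ?_
    rw [IsScalarTower.algebraMap_apply L B M.ResidueField]
    exact (Ideal.ResidueField.map_algebraMap (M.under L) M (algebraMap L B) rfl a).symm
  -- `K ⊗_L Q = 0`
  have h1 : Subsingleton (M.ResidueField ⊗[B] (B ⊗[L] Q)) := by
    refine ⟨fun a b => ?_⟩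
    have : ∀ z : M.ResidueField ⊗[B] (B ⊗[L] Q), z = 0 := by
      intro z
      induction z with
      | zero => rfl
      | tmul k w => rw [Subsingleton.elim w 0, tmul_zero]
      | add a b ha hb => rw [ha, hb, add_zero]
    rw [this a, this b]
  have h2 : Subsingleton (M.ResidueField ⊗[L] Q) :=
    (AlgebraTensorModule.cancelBaseChange L B B M.ResidueField Q).symm.injective.subsingleton
  have h3 : Subsingleton (M.ResidueField ⊗[(M.under L).ResidueField]
      ((M.under L).ResidueField ⊗[L] Q)) :=
    (AlgebraTensorModule.cancelBaseChange L (M.under L).ResidueField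
      (M.under L).ResidueField M.ResidueField Q).injective.subsingleton
  have h4 : Subsingleton ((M.under L).ResidueField ⊗[L] Q) :=
    (Module.FaithfullyFlat.subsingleton_tensorProduct_iff_right (M.under L).ResidueField
      M.ResidueField).1 h3
  exact not_subsingleton _ h4

/-- a root of `P` with inverse `y`: `y` is a root of the reversed polynomial -/
theorem aeval_reverse {L B : Type u} [CommRing L] [CommRing B] [Algebra L B] {x y : B}
    (hxy : x * y = 1) (P : L[X]) : aeval y P.reverse = 0 ↔ aeval x P = 0 := by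
  letI : Invertible x := ⟨y, by rw [mul_comm]; exact hxy, hxy⟩
  exact eval₂_reverse_eq_zero_iff (algebraMap L B) x P

theorem hD8 : StD8.{u} := by
  intro L _ _ I h1 h2 h3
  obtain ⟨P₀, hP₀, hu⟩ := h1
  set B := L[X] ⧸ I with hB
  let x : B := Ideal.Quotient.mk I X
  have haev : ∀ P : L[X], aeval x P = Ideal.Quotient.mk I P := by
    intro P
    have : (aeval x : L[X] →ₐ[L] B) = Ideal.Quotient.mkₐ L I := by
      apply Polynomial.algHom_ext
      rw [aeval_X]
      rfl
    rw [this]; rfl
  have hroot : ∀ P ∈ I, aeval x P = 0 := by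
    intro P hP
    rw [haev]; exact Ideal.Quotient.eq_zero_iff_mem.2 hP
  -- the inverse of `x`
  obtain ⟨y, hxy⟩ : ∃ y : B, x * y = 1 := by
    obtain ⟨e, he⟩ := hu
    refine ⟨- (aeval x P₀.divX * algebraMap L B (↑e⁻¹ : L)), ?_⟩
    have h0 : aeval x P₀.divX * x + algebraMap L B (P₀.coeff 0) = 0 := by
      have := hroot P₀ hP₀
      rw [← divX_mul_X_add P₀] at this
      simpa using this
    have h4 : algebraMap L B (P₀.coeff 0) * algebraMap L B (↑e⁻¹ : L) = 1 := by
      rw [← map_mul, ← he, Units.mul_inv, map_one]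
    linear_combination (-algebraMap L B (↑e⁻¹ : L)) * h0 + h4
  have hyroot : ∀ P ∈ I, aeval y P.reverse = 0 := fun P hP =>
    (aeval_reverse hxy P).2 (hroot P hP)
  -- `y` is integral
  have hyint : IsIntegral L y := by
    by_cases hL : Subsingleton L
    · haveI : Subsingleton B := by
        haveI : Subsingleton L[X] := inferInstance
        exact Ideal.Quotient.mk_surjective.subsingleton
      rw [Subsingleton.elim y 0]
      exact isIntegral_zero
    · have hne : Nontrivial L := not_subsingleton_iff_nontrivial.1 hL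
      have hc0 : P₀.coeff 0 ≠ 0 := hu.ne_zero
      have hlead : P₀.reverse.leadingCoeff = P₀.coeff 0 := by
        rw [reverse_leadingCoeff, trailingCoeff, natTrailingDegree_eq_zero.2 (Or.inr hc0)]
      obtain ⟨e, he⟩ := hu
      refine ⟨C (↑e⁻¹ : L) * P₀.reverse, ?_, ?_⟩
      · apply monic_C_mul_of_mul_leadingCoeff_eq_one
        rw [hlead, ← he, Units.inv_mul]
      · have := hyroot P₀ hP₀
        rw [aeval_def] at this
        rw [eval₂_mul, this, mul_zero]
  -- the finite algebra `C = L[y]`
  let A : Subalgebra L B := Algebra.adjoin L {y}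
  haveI hfin : Module.Finite L A := by
    have := hyint.fg_adjoin_singleton
    exact Module.Finite.iff_fg.2 this
  have hyA : y ∈ A := Algebra.subset_adjoin (Set.mem_singleton y)
  let yA : A := ⟨y, hyA⟩
  have hA : ∀ c : A, ∃ p : L[X], aeval yA p = c := by
    rintro ⟨c, hc⟩
    have hc' : c ∈ Algebra.adjoin L {y} := hc
    rw [Algebra.adjoin_singleton_eq_range_aeval] at hc'
    obtain ⟨p, hp⟩ := hc'
    refine ⟨p, Subtype.ext ?_⟩
    have h5 := (aeval_algHom_apply A.val yA p)
    exact h5.symm.trans hp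
  have hyAroot : ∀ P ∈ I, aeval yA P.reverse = 0 := by
    intro P hP
    apply Subtype.ext
    have h5 := (aeval_algHom_apply A.val yA P.reverse)
    exact h5.symm.trans (hyroot P hP)
  obtain ⟨S, hS, hStop⟩ := h3
  -- two points of `V(I)` in the same algebra `D`
  have key : ∀ (D : Type u) [CommRing D] [Algebra L D] (iB : B →ₐ[L] D) (iA : A →ₐ[L] D),
      ∀ c : A, ∃ b : B, iA c = iB b := by
    intro D _ _ iB iA
    have hunit : IsUnit (iA yA) := by
      apply Ideal.span_singleton_eq_top.1
      have hle : (Ideal.span S).map (algebraMap L B) ≤ (Ideal.span {iA yA}).comap iB := by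
        rw [Ideal.map_le_iff_le_comap, Ideal.span_le]
        intro a ha
        obtain ⟨P, hP, -, hPa⟩ := hS a ha
        show iB (algebraMap L B a) ∈ Ideal.span {iA yA}
        have h6 : aeval yA P.reverse.divX * yA + algebraMap L A (P.reverse.coeff 0) = 0 := by
          have := hyAroot P hP
          rw [← divX_mul_X_add P.reverse] at this
          simpa using this
        rw [coeff_zero_reverse, hPa] at h6
        have h7 : iB (algebraMap L B a) = iA (algebraMap L A a) := by
          rw [AlgHom.commutes, AlgHom.commutes]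
        rw [h7, eq_neg_of_add_eq_zero_right h6, map_neg, map_mul]
        exact neg_mem (Ideal.mul_mem_left _ _ (Ideal.mem_span_singleton_self _))
      rw [hStop, top_le_iff] at hle
      rw [Ideal.eq_top_iff_one]
      have : (1 : B) ∈ (Ideal.span {iA yA}).comap iB := by rw [hle]; trivial
      simpa using this
    obtain ⟨t, ht⟩ : ∃ t : D, t * iA yA = 1 := ⟨↑hunit.unit⁻¹, hunit.val_inv_mul⟩
    have htt : t = iB x := by
      apply h2 D t (iB x)
      · intro P hP
        rw [← aeval_reverse ht P, aeval_algHom_apply iA yA, hyAroot P hP, map_zero]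
      · intro P hP
        rw [aeval_algHom_apply iB x, hroot P hP, map_zero]
    have hyy : iA yA = iB y := by
      have e1 : iB x * iB y = 1 := by rw [← map_mul, hxy, map_one]
      rw [← htt] at e1
      calc iA yA = iA yA * (t * iB y) := by rw [e1, mul_one]
        _ = (t * iA yA) * iB y := by ring
        _ = iB y := by rw [ht, one_mul]
    intro c
    obtain ⟨p, hp⟩ := hA c
    refine ⟨aeval y p, ?_⟩
    rw [← hp, ← aeval_algHom_apply iA yA, ← aeval_algHom_apply iB y, hyy]
  -- `D = B ⊗ C`
  have hAB : ∀ c : A, ∃ b : B, (1 : B) ⊗ₜ[L] c = b ⊗ₜ[L] (1 : A) := fun c =>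
    key (B ⊗[L] A) Algebra.TensorProduct.includeLeft Algebra.TensorProduct.includeRight c
  -- the quotient module
  let N : Submodule L A := LinearMap.range (Algebra.linearMap L A)
  let Q := A ⧸ N
  have hone : N.mkQ 1 = 0 := by
    rw [Submodule.mkQ_apply, Submodule.Quotient.mk_eq_zero]
    exact ⟨1, by simp⟩
  have hsub : Subsingleton (B ⊗[L] Q) := by
    have hz : ∀ z : B ⊗[L] Q, z = 0 := by
      intro z
      induction z with
      | zero => rfl
      | add a b ha hb => rw [ha, hb, add_zero]
      | tmul b q =>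
        obtain ⟨c, rfl⟩ := N.mkQ_surjective q
        obtain ⟨b', hb'⟩ := hAB c
        have e1 : (b ⊗ₜ[L] c : B ⊗[L] A) = (b * b') ⊗ₜ[L] (1 : A) := by
          have e2 : (b ⊗ₜ[L] c : B ⊗[L] A) = (b ⊗ₜ[L] (1 : A)) * ((1 : B) ⊗ₜ[L] c) := by
            rw [Algebra.TensorProduct.tmul_mul_tmul, mul_one, one_mul]
          rw [e2, hb', Algebra.TensorProduct.tmul_mul_tmul, mul_one]
        have e3 : (b ⊗ₜ[L] N.mkQ c : B ⊗[L] Q) = (N.mkQ.lTensor B) (b ⊗ₜ[L] c) := rfl
        rw [e3, e1, LinearMap.lTensor_tmul, hone, tmul_zero]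
    exact ⟨fun a b => by rw [hz a, hz b]⟩
  have hann := ann_map_eq_top (L := L) (B := B) (Q := Q) hsub
  -- the ideal of all `b` such that `b b' y^k` comes from `L` for all large `k`
  let T : Ideal B :=
    { carrier := {b | ∀ b' : B, ∃ k₀ : ℕ, ∀ k, k₀ ≤ k → ∃ c : L, b * b' * y ^ k = algebraMap L B c}
      add_mem' := by
        intro b₁ b₂ hb₁ hb₂ b'
        obtain ⟨k₁, hk₁⟩ := hb₁ b'
        obtain ⟨k₂, hk₂⟩ := hb₂ b'
        refine ⟨max k₁ k₂, fun k hk => ?_⟩
        obtain ⟨c₁, hc₁⟩ := hk₁ k (le_trans (le_max_left _ _) hk)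
        obtain ⟨c₂, hc₂⟩ := hk₂ k (le_trans (le_max_right _ _) hk)
        refine ⟨c₁ + c₂, ?_⟩
        rw [map_add, ← hc₁, ← hc₂]; ring
      zero_mem' := by
        intro b'
        exact ⟨0, fun k _ => ⟨0, by simp⟩⟩
      smul_mem' := by
        intro a b hb b'
        obtain ⟨k₀, hk₀⟩ := hb (a * b')
        refine ⟨k₀, fun k hk => ?_⟩
        obtain ⟨c, hc⟩ := hk₀ k hk
        exact ⟨c, by rw [← hc, smul_eq_mul]; ring⟩ }
  have hT : (Module.annihilator L Q).map (algebraMap L B) ≤ T := by
    rw [Ideal.map_le_iff_le_comap]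
    intro n hn b'
    obtain ⟨p, rfl⟩ := Ideal.Quotient.mk_surjective b'
    refine ⟨p.natDegree, fun k hk => ?_⟩
    -- `p(x) y^k` lies in `C`
    have hmem : Ideal.Quotient.mk I p * y ^ k ∈ A := by
      rw [← haev, aeval_eq_sum_range, Finset.sum_mul]
      refine sum_mem fun i hi => ?_
      have hik : i ≤ k := le_trans (Nat.lt_succ_iff.1 (Finset.mem_range.1 hi)) hk
      have e1 : p.coeff i • x ^ i * y ^ k = p.coeff i • y ^ (k - i) := by
        rw [smul_mul_assoc]
        congr 1
        obtain ⟨j, rfl⟩ := Nat.exists_eq_add_of_le hik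
        rw [pow_add, ← mul_assoc, ← mul_pow, hxy, one_pow, one_mul, Nat.add_sub_cancel_left]
      rw [e1]
      exact A.smul_mem (pow_mem hyA _) _
    have hn' := Module.mem_annihilator.1 hn (N.mkQ ⟨_, hmem⟩)
    rw [← map_smul, Submodule.mkQ_apply, Submodule.Quotient.mk_eq_zero] at hn'
    obtain ⟨c, hc⟩ := hn'
    refine ⟨c, ?_⟩
    have hc' := congrArg (Subtype.val) hc
    rw [Algebra.linearMap_apply] at hc'
    have e4 : ((algebraMap L A c : A) : B) = algebraMap L B c := rfl
    rw [e4] at hc'
    rw [hc', mul_assoc, ← Algebra.smul_def]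
    rfl
  rw [hann, top_le_iff] at hT
  have h1T : (1 : B) ∈ T := by rw [hT]; trivial
  obtain ⟨k₀, hk₀⟩ := h1T 1
  refine ⟨k₀, fun k hk => ?_⟩
  obtain ⟨c, hc⟩ := hk₀ k hk
  refine ⟨c, ?_⟩
  rw [← Ideal.Quotient.eq_zero_iff_mem, ← haev]
  rw [mul_one, one_mul] at hc
  have e5 : aeval x (1 - C c * X ^ k) = 1 - algebraMap L B c * x ^ k := by simp
  rw [e5, ← hc, ← mul_pow, mul_comm, hxy, one_pow, sub_self]

end Pool.Agent.Helper81.GU
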