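import Pool.Agent.Helper91.GU.StF

/-!
# Project GU, module F2: the trivial row
-/

set_option autoImplicit false

namespace Pool.Agent.Helper81.GU

open Pool.Agent.Helper91.GU
open Polynomial

universe u

theorem Phi_C {L : Type u} [CommRing L] (I : Ideal L[X]) (l : L) :
    Phi I (C l) = C (Ideal.Quotient.mk I (C l)) := by
  simp [Phi]

theorem Phi_X {L : Type u} [CommRing L] (I : Ideal L[X]) :
    Phi I X = C (Ideal.Quotient.mk I X) * X := by
  simp [Phi]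

theorem Phi_CX {L : Type u} [CommRing L] (I : Ideal L[X]) (l : L) (k : ℕ)
    (h : 1 - C l * X ^ k ∈ I) : Phi I (C l * X ^ k) = X ^ k := by
  have h1 : Ideal.Quotient.mk I (C l) * Ideal.Quotient.mk I X ^ k = 1 := by
    rw [← map_pow, ← map_mul]
    have := (Ideal.Quotient.eq (I := I)).2 h
    rw [← this, map_one]
  have h2 : (C (Ideal.Quotient.mk I (C l)) * C (Ideal.Quotient.mk I X) ^ k : (L[X] ⧸ I)[X]) = 1 := by
    rw [← C_pow, ← C_mul, h1, C_1]
  rw [map_mul, map_pow, Phi_C, Phi_X]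
  linear_combination (X ^ k : (L[X] ⧸ I)[X]) * h2

theorem hF2 (hB6 : StB6.{u}) (hB7 : StB7.{u}) (hE0 : StE0.{u}) (hF1 : StF1.{u}) : StF2.{u} := by
  intro L _ I k₀ a s b κ g hd hfac v₀ hv₀ N
  obtain ⟨hYK, hbI, hκ, hgI, hgJ⟩ := hd
  obtain ⟨-, -, hxu, hPhi0, -, hf, -⟩ := hE0 L I k₀ a hYK
  set u : L[X] ⧸ I := Ideal.Quotient.mk I v₀ with hu
  set x : L[X] ⧸ I := Ideal.Quotient.mk I X with hx
  obtain ⟨u', hu'⟩ := hv₀.exists_right_inv
  obtain ⟨M₁, hM₁⟩ := hf (u * x ^ κ)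
  obtain ⟨M₂, hM₂⟩ := hf u'
  obtain ⟨M', hM'1, hM'2, hM'N, hM'k, hM'0⟩ :
      ∃ M' : ℕ, M₁ ≤ M' ∧ M₂ ≤ M' ∧ N ≤ M' ∧ k₀ ≤ M' ∧ 1 ≤ M' :=
    ⟨M₁ + M₂ + N + k₀ + 1, by omega, by omega, by omega, by omega, by omega⟩
  have hgx : Ideal.Quotient.mk I (C g) * x ^ κ = 1 := by
    rw [hx, ← map_pow, ← map_mul]
    have := (Ideal.Quotient.eq (I := I)).2 hgI
    rw [← this, map_one]
  have hsM : M' ≤ (s + 1) * M' := Nat.le_mul_of_pos_left _ (Nat.succ_pos _)
  -- `w`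
  obtain ⟨w, hw⟩ : ∃ w : L[X], Phi I w = X ^ M' :=
    ⟨C (a M') * X ^ M', Phi_CX I (a M') M' (hYK M' hM'k)⟩
  -- `o`
  obtain ⟨f₁, hf₁⟩ := hM₁ ((s + 1) * M') (le_trans hM'1 hsM) 1
  rw [Polynomial.map_one, mul_one] at hf₁
  obtain ⟨o, ho⟩ : ∃ o : L[X], o = C g * (X ^ ((s + 1) * M') * f₁) := ⟨_, rfl⟩
  have hgux : (C (Ideal.Quotient.mk I (C g)) * C (u * x ^ κ) : (L[X] ⧸ I)[X]) = C u := by
    rw [← C_mul]
    congr 1
    linear_combination u * hgx
  have hPo : Phi I o = X ^ ((s + 1) * M') * C u := by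
    rw [ho, map_mul, hf₁, Phi_C]
    linear_combination (X ^ ((s + 1) * M') : (L[X] ⧸ I)[X]) * hgux
  -- F1
  obtain ⟨p, q, hpq, hp1⟩ := hF1 L (s + 1).factorial hfac ((s + 3) * M')
  obtain ⟨f₃, hf₃⟩ := hM₂ M' hM'2 q
  obtain ⟨f₄, hf₄⟩ := hM₁ ((s + 3) * M')
    (le_trans hM'1 (Nat.le_mul_of_pos_left _ (Nat.succ_pos _))) q
  set qb : (L[X] ⧸ I)[X] := q.map (algebraMap L (L[X] ⧸ I)) with hqb
  obtain ⟨G, hG⟩ : ∃ G : L[X], G = 1 - w * o * (X ^ M' * f₃) := ⟨_, rfl⟩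
  obtain ⟨û, hû⟩ : ∃ û : L[X], û = C g * (X ^ ((s + 3) * M') * f₄) := ⟨_, rfl⟩
  have huu : (C u * C u' : (L[X] ⧸ I)[X]) = 1 := by rw [← C_mul, hu', C_1]
  have hPG : Phi I G = 1 - X ^ ((s + 3) * M') * qb := by
    rw [hG, map_sub, map_one, map_mul, map_mul, hw, hPo, hf₃]
    have e1 : (X : (L[X] ⧸ I)[X]) ^ ((s + 3) * M') = X ^ M' * X ^ ((s + 1) * M') * X ^ M' := by
      rw [← pow_add, ← pow_add]; congr 1; ring
    rw [e1]
    linear_combination (-(X ^ M' * X ^ ((s + 1) * M') * X ^ M' * qb) : (L[X] ⧸ I)[X]) * huu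
  have hPG' : Phi I G = (1 - X) * (p.map (algebraMap L (L[X] ⧸ I))) ^ (s + 1).factorial := by
    have := congrArg (Polynomial.map (algebraMap L (L[X] ⧸ I))) hpq
    simp only [Polynomial.map_mul, Polynomial.map_sub, Polynomial.map_one, Polynomial.map_X,
      Polynomial.map_pow] at this
    rw [this, hPG]
  have hPû : Phi I û = C u * (1 - Phi I G) := by
    rw [hPG, hû, map_mul, hf₄, Phi_C]
    linear_combination (X ^ ((s + 3) * M') * qb : (L[X] ⧸ I)[X]) * hgux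
  have hGq : G = 1 - C g * X * (w * (X ^ ((s + 1) * M' - 1) * f₁) * (X ^ M' * f₃)) := by
    have e1 : (X : L[X]) ^ ((s + 1) * M') = X * X ^ ((s + 1) * M' - 1) := by
      rw [← pow_succ']; congr 1; omega
    rw [hG, ho, e1]; ring
  -- formal facts
  obtain ⟨hE, hR⟩ := hB7 L[X] L[X] (RingHom.id _)
  obtain ⟨hrefl, hsymm, htrans, -, hUm, -, -⟩ := hE (Unit ⊕ Fin (s + 1))
  set K : Ideal L[X] := idl (crow G b N) with hK
  have hGK : G ∈ K := Ideal.subset_span ⟨0, rfl⟩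
  have hbK : ∀ j, C (b j) * X ^ N ∈ K := fun j => Ideal.subset_span ⟨j.succ, rfl⟩
  -- (1)
  have r1 : REq (row o (crow G b N)) (row 1 0) := by
    apply htrans _ (row o (crow 1 b N))
    · apply (hR (s + 1) o o (crow G b N) (crow 1 b N)).2.1
      intro j
      refine Fin.cases ?_ (fun j => ?_) j
      · show 1 - G ∈ _
        rw [hG, Ideal.mem_span_singleton]
        exact ⟨w * (X ^ M' * f₃), by ring⟩
      · show C (b j) * X ^ N - C (b j) * X ^ N ∈ _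
        rw [sub_self]; exact zero_mem _
    · apply (hR (s + 1) o o (crow 1 b N) (crow 1 b N)).2.2.2.1
      exact Ideal.subset_span ⟨0, rfl⟩
  -- (2)
  have hdiff : û * w ^ (s + 1) - o * (1 - G) ∈ K := by
    obtain ⟨k', hk'⟩ : ∃ k' : L[X], k' = X ^ ((s + 3) * M' - N) * f₄ * w ^ (s + 1)
      - X ^ ((s + 1) * M' - N) * f₁ * (1 - G) := ⟨_, rfl⟩
    have e1 : û * w ^ (s + 1) - o * (1 - G) = X ^ N * (C g * k') := by
      have e2 : (X : L[X]) ^ ((s + 3) * M') = X ^ N * X ^ ((s + 3) * M' - N) := by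
        rw [← pow_add]; congr 1
        have : (s + 1) * M' ≤ (s + 3) * M' := Nat.mul_le_mul_right _ (by omega)
        omega
      have e3 : (X : L[X]) ^ ((s + 1) * M') = X ^ N * X ^ ((s + 1) * M' - N) := by
        rw [← pow_add]; congr 1; omega
      rw [hk', hû, ho, e2, e3]; ring
    have e4 : Phi I (û * w ^ (s + 1) - o * (1 - G)) = 0 := by
      rw [map_sub, map_mul, map_mul, map_pow, hPû, hw, hPo, map_sub, map_one]
      have e5 : ((X : (L[X] ⧸ I)[X]) ^ M') ^ (s + 1) = X ^ ((s + 1) * M') := by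
        rw [← pow_mul]; congr 1; ring
      rw [e5]; ring
    have e6 : Phi I k' = 0 := by
      rw [e1, map_mul, map_mul, map_pow, Phi_C, Phi_X] at e4
      have h7 : IsUnit (Ideal.Quotient.mk I (C g)) := IsUnit.of_mul_eq_one _ hgx
      have h8 : IsUnit (C (x ^ N * Ideal.Quotient.mk I (C g)) : (L[X] ⧸ I)[X]) :=
        ((hxu.pow N).mul h7).map C
      have h9 : (X : (L[X] ⧸ I)[X]) ^ N *
          ((C (x ^ N * Ideal.Quotient.mk I (C g)) : (L[X] ⧸ I)[X]) * Phi I k') = 0 := by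
        rw [C_mul, C_pow, ← e4]; ring
      have h10 : (C (x ^ N * Ideal.Quotient.mk I (C g)) : (L[X] ⧸ I)[X]) * Phi I k' = 0 := by
        ext n
        have h11 := congrArg (fun P : (L[X] ⧸ I)[X] => P.coeff (n + N)) h9
        simpa only [coeff_X_pow_mul, coeff_zero] using h11
      exact (h8.mul_right_eq_zero).1 h10
    rw [e1]
    have hle : (Ideal.span (Set.range b)).map C ≤
        Submodule.comap (LinearMap.mulLeft L[X] (X ^ N)) K := by
      rw [Ideal.map_le_iff_le_comap, Ideal.span_le]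
      rintro _ ⟨j, rfl⟩
      show X ^ N * C (b j) ∈ K
      rw [mul_comm]; exact hbK j
    apply hle
    rw [Ideal.mem_map_C_iff]
    intro n
    rw [coeff_C_mul]
    exact hgJ _ ((hPhi0 k').1 e6 n)
  have hdiff' : o - û * w ^ (s + 1) ∈ K := by
    have : o - û * w ^ (s + 1) = o * G - (û * w ^ (s + 1) - o * (1 - G)) := by ring
    rw [this]
    exact sub_mem (Ideal.mul_mem_left _ _ hGK) hdiff
  have r2 : REq (row (û * w ^ (s + 1)) (crow G b N)) (row o (crow G b N)) :=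
    (hR (s + 1) (û * w ^ (s + 1)) o (crow G b N) (crow G b N)).1 hdiff'
  have r12 := htrans _ _ _ r2 r1
  -- unimodularity
  have hum1 : Um (row (1 : L[X]) (0 : Fin (s + 1) → L[X])) := by
    refine ⟨row 1 0, ?_⟩
    simp [dotProduct, row]
  have hum2 : Um (row (û * w ^ (s + 1)) (crow G b N)) := hUm _ _ (hsymm _ _ r12) hum1
  have hum3 : Um (row û (crow G b N)) := by
    obtain ⟨y, hy⟩ := hum2
    refine ⟨Sum.elim (fun _ => w ^ (s + 1) * y (Sum.inl ())) (fun j => y (Sum.inr j)), ?_⟩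
    rw [← hy]
    simp only [dotProduct, row, Fintype.sum_sum_type, Sum.elim_inl, Sum.elim_inr,
      Finset.univ_unique, Finset.sum_singleton, PUnit.default_eq_unit]
    ring
  have hcop : IsCoprime w G := ⟨o * (X ^ M' * f₃), 1, by rw [hG]; ring⟩
  have r3 : REq (row (û * w ^ (s + 1)) (crow G b N)) (row û (crow G b N)) :=
    hB6 L[X] s û w G (fun j => C (b j) * X ^ N) hcop hum3
  exact ⟨p, G, _, û, ⟨hp1, hPG', hGq⟩, hPû, htrans _ _ _ (hsymm _ _ r3) r12⟩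

end Pool.Agent.Helper81.GU
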