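import Pool.Agent.Helper79.GU.St1
import Pool.Agent.Helper79.GS.St6

set_option autoImplicit false

namespace Pool.Agent.Helper81.GU

open Pool.Agent.Helper79.GU Pool.Agent.Helper79.GT Pool.Agent.Helper79.GS Pool.Agent.Helper19.SK
  Pool.Agent.Helper73.DC Finset

private theorem lett_iff {α : Type} [Fintype α] (w : List α) (i : ℕ) (a : α) :
    lett w i = cd a + 1 ↔ w[i]? = some a := by
  unfold lett
  cases h : w[i]? with
  | none =>
    constructor
    · intro h1
      exact absurd h1 (Nat.succ_ne_zero _).symm
    · intro h1
      exact absurd h1 (Option.some_ne_none a).symm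
  | some b =>
    constructor
    · intro h1
      have h2 : cd b + 1 = cd a + 1 := h1
      have h3 : cd b = cd a := Nat.succ_injective h2
      have h4 := (Fintype.equivFin α).injective (Fin.ext h3)
      rw [h4]
    · intro h1
      rw [Option.some.inj h1]

private theorem nV_form (n : ℕ) (t : List (Fin 5)) : nV (List.replicate n 3 ++ 4 :: t) = n := by
  unfold nV
  refine (tL7 _ _).1 n ?_ ?_ ?_
  · simp
  · refine (lett_iff _ _ _).2 ?_
    rw [List.getElem?_append_right (by simp)]
    simp
  · intro i hi h
    have h1 := (lett_iff _ _ _).1 h
    rw [List.getElem?_append_left (by simpa using hi), List.getElem?_replicate, if_pos hi] at h1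
    exact (by decide : (3 : Fin 5) ≠ 4) (Option.some.inj h1)

theorem hWRE (_hCOD : StCOD) : StWRE := by
  intro n m kb kw c₀ P₀ H c P Q hn
  set A := inst n m kb kw c₀ P₀ H with hA
  have hP : (bword P).length = n * n := by simp [bword]
  have hQ : (bword Q).length = n * n := by simp [bword]
  have hnV : nV (A ++ ltr (some c) :: (bword P ++ bword Q)) = n := by
    rw [hA]
    unfold inst
    rw [List.append_assoc, List.cons_append]
    exact nV_form _ _
  have hlen : (A ++ ltr (some c) :: (bword P ++ bword Q)).length = A.length + 1 + 2 * (n * n) := by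
    simp only [List.length_append, List.length_cons, hP, hQ]
    ring
  refine ⟨hnV, ?_, ?_⟩
  · unfold cE
    rw [hnV, hlen]
    have e1 : A.length + 1 + 2 * (n * n) - (2 * (n * n) + 1) = A.length := by omega
    rw [e1]
    have e2 : (A ++ ltr (some c) :: (bword P ++ bword Q))[A.length]? = some (ltr (some c)) := by
      rw [List.getElem?_append_right le_rfl, Nat.sub_self]
      rfl
    cases c
    · rw [if_neg]
      · rfl
      · intro h
        have h1 := (lett_iff _ _ _).1 h
        rw [e2] at h1
        exact absurd (Option.some.inj h1) (by decide)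
    · rw [if_pos]
      · rfl
      · exact (lett_iff _ _ _).2 e2
  · intro N hN
    unfold bE codeB
    rw [hnV, Finset.sum_range]
    refine Finset.sum_congr rfl fun i _ => ?_
    have e0 : pw N 3 i.val = 3 ^ i.val := by
      unfold pw
      refine min_eq_left ?_
      have : 3 ^ i.val ≤ 3 ^ (n * n) := Nat.pow_le_pow_right (by norm_num) i.isLt.le
      omega
    rw [e0]
    congr 1
    have e2 : (A ++ ltr (some c) :: (bword P ++ bword Q))[(A ++ ltr (some c) ::
        (bword P ++ bword Q)).length - n * n + i.val]? =
          some (ltr (Q (finProdFinEquiv.symm i))) := by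
      rw [hlen]
      have e3 : A.length + 1 + 2 * (n * n) - n * n + i.val = A.length + ((n * n + i.val) + 1) := by
        omega
      rw [e3, List.getElem?_append_right (Nat.le_add_right _ _), Nat.add_sub_cancel_left,
        List.getElem?_cons_succ, List.getElem?_append_right (by rw [hP]; exact Nat.le_add_right _ _),
        hP, Nat.add_sub_cancel_left]
      unfold bword
      rw [List.getElem?_ofFn]
      simp
    unfold ctE
    rw [hnV]
    have k1 := lett_iff (A ++ ltr (some c) :: (bword P ++ bword Q))
      ((A ++ ltr (some c) :: (bword P ++ bword Q)).length - n * n + i.val) (1 : Fin 5)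
    have k2 := lett_iff (A ++ ltr (some c) :: (bword P ++ bword Q))
      ((A ++ ltr (some c) :: (bword P ++ bword Q)).length - n * n + i.val) (2 : Fin 5)
    rw [e2] at k1 k2
    generalize Q (finProdFinEquiv.symm i) = x at k1 k2 ⊢
    rcases x with _ | b
    · rw [if_neg fun h => absurd (Option.some.inj (k1.1 h)) (by decide),
        if_neg fun h => absurd (Option.some.inj (k2.1 h)) (by decide)]
    · cases b
      · rw [if_neg fun h => absurd (Option.some.inj (k1.1 h)) (by decide), if_pos (k2.2 rfl)]
      · rw [if_pos (k1.2 rfl)]

end Pool.Agent.Helper81.GU
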